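import Pool.Agent.Helper162.Arc.PA
import Pool.Agent.Helper300.Cont

set_option autoImplicit false

open Set Topology

namespace Pool.Agent.Results.MP_3d59a4_gt.NotLambdaConnected

/-- A subcontinuum of a space: a compact connected (in particular nonempty) subset. -/
def IsSubcontinuum {X : Type} [TopologicalSpace X] (K : Set X) : Prop :=
  IsCompact K ∧ IsConnected K

/-- `K` is the union of two subcontinua, both different from `K`. -/
def IsDecomposable {X : Type} [TopologicalSpace X] (K : Set X) : Prop :=
  ∃ A B : Set X, IsSubcontinuum A ∧ IsSubcontinuum B ∧ A ≠ K ∧ B ≠ K ∧ A ∪ B = K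

/-- Every nondegenerate subcontinuum of `K` is decomposable. -/
def IsHereditarilyDecomposable {X : Type} [TopologicalSpace X] (K : Set X) : Prop :=
  ∀ L : Set X, L ⊆ K → IsSubcontinuum L → L.Nontrivial → IsDecomposable L

/-- A hereditarily decomposable continuum has only degenerate images in a space all of whose
subcontinua are indecomposable. -/
theorem image_subsingleton {Z X : Type} [TopologicalSpace Z] [T2Space Z] [TopologicalSpace X]
    [T2Space X] (hX : ∀ I : Set X, IsSubcontinuum I → ¬ IsDecomposable I) {f : Z → X}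
    (hf : Continuous f) {K : Set Z} (hK : IsSubcontinuum K)
    (hKd : IsHereditarilyDecomposable K) : (f '' K).Subsingleton := by
  by_contra hns
  rw [not_subsingleton_iff] at hns
  -- a minimal subcontinuum with the same image
  obtain ⟨L, hLK, hL⟩ := zorn_superset_nonempty
    {L : Set Z | IsCompact L ∧ IsConnected L ∧ f '' L = f '' K}
    (by
      intro c hc hchain hne
      obtain ⟨s0, hs0⟩ := hne
      have hdir : Directed (· ⊇ ·) (fun s : c => (s : Set Z)) := by
        intro a b
        rcases hchain.total a.2 b.2 with h | h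
        · exact ⟨a, Subset.rfl, h⟩
        · exact ⟨b, h, Subset.rfl⟩
      have : Nonempty c := ⟨⟨s0, hs0⟩⟩
      have himg : f '' (⋂₀ c) = f '' K := by
        apply Subset.antisymm
        · rw [← (hc hs0).2.2]
          exact image_mono (sInter_subset_of_mem hs0)
        · intro y hy
          have hdir' : Directed (· ⊇ ·) (fun s : c => (s : Set Z) ∩ f ⁻¹' {y}) := by
            intro a b
            obtain ⟨d, h1, h2⟩ := hdir a b
            exact ⟨d, inter_subset_inter_left _ h1, inter_subset_inter_left _ h2⟩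
          have hne := IsCompact.nonempty_iInter_of_directed_nonempty_isCompact_isClosed
            (fun s : c => (s : Set Z) ∩ f ⁻¹' {y}) hdir' (fun s => by
              have : y ∈ f '' (s : Set Z) := by rw [(hc s.2).2.2]; exact hy
              obtain ⟨z, hz, hzy⟩ := this
              exact ⟨z, hz, hzy⟩)
            (fun s => (hc s.2).1.inter_right (isClosed_singleton.preimage hf))
            (fun s => (hc s.2).1.isClosed.inter (isClosed_singleton.preimage hf))
          obtain ⟨z, hz⟩ := hne
          rw [mem_iInter] at hz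
          exact ⟨z, fun s hs => (hz ⟨s, hs⟩).1, (hz ⟨s0, hs0⟩).2⟩
      refine ⟨⋂₀ c, ⟨?_, ⟨?_, ?_⟩, himg⟩, fun s hs => sInter_subset_of_mem hs⟩
      · exact (hc hs0).1.of_isClosed_subset (isClosed_sInter (fun s hs => (hc hs).1.isClosed))
          (sInter_subset_of_mem hs0)
      · rw [← image_nonempty (f := f), himg]
        exact hns.nonempty
      · exact Pool.Agent.Helper300.Cont.isPreconnected_sInter hchain ⟨s0, hs0⟩
          (fun s hs => (hc hs).1) (fun s hs => (hc hs).2.1.isPreconnected))
    K ⟨hK.1, hK.2, rfl⟩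
  obtain ⟨hLc, hLconn, hLi⟩ := hL.prop
  have hLn : L.Nontrivial := by
    rw [← hLi] at hns
    obtain ⟨_, ⟨a, ha, rfl⟩, _, ⟨b, hb, rfl⟩, hab⟩ := hns
    exact ⟨a, ha, b, hb, fun h => hab (congrArg f h)⟩
  obtain ⟨A, B, hA, hB, hAL, hBL, hAB⟩ := hKd L hLK ⟨hLc, hLconn⟩ hLn
  have hmin : ∀ M : Set Z, M ⊆ L → IsSubcontinuum M → M ≠ L → f '' M ≠ f '' K := by
    intro M hML hM hne h
    exact hne (Subset.antisymm hML (hL.le_of_le ⟨hM.1, hM.2, h⟩ hML))
  refine hX (f '' K) ⟨hK.1.image hf, hK.2.image f hf.continuousOn⟩ ⟨f '' A, f '' B,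
    ⟨hA.1.image hf, hA.2.image f hf.continuousOn⟩, ⟨hB.1.image hf, hB.2.image f hf.continuousOn⟩,
    hmin A (hAB ▸ subset_union_left) hA hAL, hmin B (hAB ▸ subset_union_right) hB hBL, ?_⟩
  rw [← image_union, hAB, hLi]

/-- There are nondegenerate (metric) continua `X` and `Y` such that no two distinct points of
`X × Y` lie together in a hereditarily decomposable subcontinuum of `X × Y`. -/
theorem result : ∃ (X Y : Type) (_ : MetricSpace X) (_ : MetricSpace Y),
    CompactSpace X ∧ ConnectedSpace X ∧ Nontrivial X ∧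
    CompactSpace Y ∧ ConnectedSpace Y ∧ Nontrivial Y ∧
    ∀ p q : X × Y, p ≠ q →
      ¬ ∃ K : Set (X × Y), IsSubcontinuum K ∧ IsHereditarilyDecomposable K ∧ p ∈ K ∧ q ∈ K := by
  have hHI : ∀ I : Set Pool.Agent.Helper162.Arc.PA, IsSubcontinuum I → ¬ IsDecomposable I := by
    rintro I hI ⟨A, B, hA, hB, hAI, hBI, hAB⟩
    exact Pool.Agent.Helper162.Arc.pa_hi hI ⟨A, B, hA, hB, hAB ▸ subset_union_left,
      hAB ▸ subset_union_right, hAI, hBI, hAB⟩
  refine ⟨Pool.Agent.Helper162.Arc.PA, Pool.Agent.Helper162.Arc.PA,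
    TopologicalSpace.metrizableSpaceMetric Pool.Agent.Helper162.Arc.PA,
    TopologicalSpace.metrizableSpaceMetric Pool.Agent.Helper162.Arc.PA,
    inferInstance, inferInstance, inferInstance, inferInstance, inferInstance, inferInstance, ?_⟩
  rintro p q hpq ⟨K, hK, hKd, hp, hq⟩
  apply hpq
  exact Prod.ext
    (image_subsingleton hHI continuous_fst hK hKd (mem_image_of_mem _ hp) (mem_image_of_mem _ hq))
    (image_subsingleton hHI continuous_snd hK hKd (mem_image_of_mem _ hp) (mem_image_of_mem _ hq))

end Pool.Agent.Results.MP_3d59a4_gt.NotLambdaConnected
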